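import Mathlib
import Pool.Graph.R_seed8.Helper292.SP.Lang

/-!
# Basic facts about the forcing language of `Pool.Agent.Helper292.SP.Lang`
-/

set_option autoImplicit false

namespace Pool.Agent.H637.F

open Cardinal Set Pool.Agent.Helper292.SP

universe u v w

variable {P : Type u} [Preorder P]

theorem mem_fex {ι : Sort v} {φ : ι → Set P} {p : P} :
    p ∈ fex φ ↔ ∀ q ≤ p, ∃ r ≤ q, ∃ i, r ∈ φ i := by
  simp only [fex, fnot, fall, Set.mem_ofPred_eq, not_forall, not_not]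
  constructor
  · intro h q hq
    obtain ⟨i, r, hr, h'⟩ := h q hq
    exact ⟨r, hr, i, h'⟩
  · intro h q hq
    obtain ⟨r, hr, i, h'⟩ := h q hq
    exact ⟨i, r, hr, h'⟩

theorem mem_fimp {φ ψ : Set P} {p : P} :
    p ∈ fimp φ ψ ↔ ∀ q ≤ p, q ∈ φ → ∃ r ≤ q, r ∈ ψ := by
  simp only [fimp, fnot, fand, Set.mem_ofPred_eq, not_and, not_forall, not_not]
  constructor
  · intro h q hq h'
    obtain ⟨r, hr, h''⟩ := h q hq h'
    exact ⟨r, hr, h''⟩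
  · intro h q hq h'
    obtain ⟨r, hr, h''⟩ := h q hq h'
    exact ⟨r, hr, h''⟩

theorem mem_for {φ ψ : Set P} {p : P} :
    p ∈ for' φ ψ ↔ ∀ q ≤ p, ∃ r ≤ q, r ∈ φ ∨ r ∈ ψ := by
  constructor
  · intro h q hq
    by_contra hcon
    push Not at hcon
    exact h q hq ⟨fun r hr hr' => (hcon r hr).1 hr', fun r hr hr' => (hcon r hr).2 hr'⟩
  · intro h q hq hcon
    obtain ⟨r, hr, h1 | h1⟩ := h q hq
    · exact hcon.1 r hr h1
    · exact hcon.2 r hr h1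

/-- The sentence is preserved by passing to stronger conditions. -/
def Dn (φ : Set P) : Prop := ∀ p ∈ φ, ∀ q ≤ p, q ∈ φ

theorem dn_fnot (φ : Set P) : Dn (fnot φ) := fun _ h _ hq _ hr => h _ (hr.trans hq)
theorem dn_fand {φ ψ : Set P} (h : Dn φ) (h' : Dn ψ) : Dn (fand φ ψ) :=
  fun _ hp _ hq => ⟨h _ hp.1 _ hq, h' _ hp.2 _ hq⟩
theorem dn_fall {ι : Sort v} {φ : ι → Set P} (h : ∀ i, Dn (φ i)) : Dn (fall φ) :=
  fun _ hp _ hq i => h i _ (hp i) _ hq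
theorem dn_fex {ι : Sort v} (φ : ι → Set P) : Dn (fex φ) := dn_fnot _
theorem dn_fimp (φ ψ : Set P) : Dn (fimp φ ψ) := dn_fnot _
theorem dn_fiff (φ ψ : Set P) : Dn (fiff φ ψ) := dn_fand (dn_fimp _ _) (dn_fimp _ _)
theorem dn_fground (c : Prop) : Dn (fground c : Set P) := fun _ h _ _ => h
theorem dn_meets (N : Set P) : Dn (meets N) := fun _ h _ hq r hr => h r (hr.trans hq)
theorem dn_IsFun {X : Type v} {Y : Type w} (R : X → Y → Set P) : Dn (IsFun R) :=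
  dn_fand (dn_fall fun _ => dn_fex _) (dn_fall fun _ => dn_fall fun _ => dn_fall fun _ => dn_fimp _ _)

theorem meets_of_mem {N : Set P} {p s : P} (hs : s ∈ N) (h : p ≤ s) : p ∈ meets N :=
  fun q hq => ⟨q, le_rfl, s, hs, hq.trans h⟩

theorem exists_of_meets {N : Set P} {p : P} (h : p ∈ meets N) : ∃ r ≤ p, ∃ s ∈ N, r ≤ s :=
  h p le_rfl

theorem exists_mem_of_meets {N : Set P} (hN : Dn N) {p : P} (h : p ∈ meets N) :
    ∃ r ≤ p, r ∈ N := by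
  obtain ⟨r, hr, s, hs, hrs⟩ := h p le_rfl
  exact ⟨r, hr, hN s hs r hrs⟩

theorem meets_of_dense {N : Set P} {p : P} (h : ∀ q ≤ p, ∃ r ≤ q, r ∈ meets N) : p ∈ meets N := by
  intro q hq
  obtain ⟨r, hr, hr'⟩ := h q hq
  obtain ⟨s, hs, t, ht, hst⟩ := hr' r le_rfl
  exact ⟨s, hs.trans hr, t, ht, hst⟩

theorem mem_meets_of_dn {N : Set P} (hN : Dn N) {p : P} :
    p ∈ meets N ↔ ∀ q ≤ p, ∃ r ≤ q, r ∈ N := by
  constructor
  · intro h q hq
    exact exists_mem_of_meets hN (dn_meets N p h q hq)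
  · intro h q hq
    obtain ⟨r, hr, hr'⟩ := h q hq
    exact ⟨r, hr, r, hr', le_rfl⟩

theorem meets_meets {N : Set P} {p : P} : p ∈ meets (meets N) ↔ p ∈ meets N := by
  rw [mem_meets_of_dn (dn_meets N)]
  exact ⟨meets_of_dense, fun h q hq => ⟨q, le_rfl, dn_meets N p h q hq⟩⟩

theorem meets_ground {c : Prop} {q : P} : q ∈ meets {_r : P | c} ↔ c := by
  constructor
  · intro h
    obtain ⟨r, -, s, hs, -⟩ := h q le_rfl
    exact hs
  · intro h s _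
    exact ⟨s, le_rfl, s, h, le_rfl⟩

theorem fex_of_mem {ι : Sort v} {φ : ι → Set P} {p : P} (i : ι) (hd : Dn (φ i)) (h : p ∈ φ i) :
    p ∈ fex φ := mem_fex.2 fun q hq => ⟨q, le_rfl, i, hd _ h _ hq⟩

theorem not_fex {ι : Sort v} {φ : ι → Set P} {p : P} (h : ∀ q ≤ p, ∀ i, q ∉ φ i) :
    p ∈ fnot (fex φ) := by
  intro q hq hq'
  obtain ⟨r, hr, i, hi⟩ := mem_fex.1 hq' q le_rfl
  exact h r (hr.trans hq) i hi

theorem exists_of_not_fex {ι : Sort v} {φ : ι → Set P} {p : P} (h : p ∉ fex φ) :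
    ∃ q ≤ p, ∀ i, q ∈ fnot (φ i) := by
  rw [mem_fex] at h
  push Not at h
  obtain ⟨q, hq, h⟩ := h
  exact ⟨q, hq, fun i r hr hri => h r hr i hri⟩

theorem IsFun_tot {X : Type v} {Y : Type w} {R : X → Y → Set P} {p : P} (h : p ∈ IsFun R) :
    ∀ q ≤ p, ∀ x, ∃ r ≤ q, ∃ y, r ∈ meets (R x y) := fun q hq x => mem_fex.1 (h.1 x) q hq

theorem IsFun_fun {X : Type v} {Y : Type w} {R : X → Y → Set P} {p : P} (h : p ∈ IsFun R)
    {q : P} (hq : q ≤ p) {x : X} {y y' : Y} (h1 : q ∈ meets (R x y)) (h2 : q ∈ meets (R x y')) :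
    y = y' := by
  obtain ⟨r, _, hr⟩ := mem_fimp.1 (h.2 x y y') q hq ⟨h1, h2⟩
  exact hr

/-- Functions of the ground model. -/
theorem isFun_ground {X : Type v} {Y : Type w} (f : X → Y) (p : P) :
    p ∈ IsFun (P := P) fun x y => {_r : P | f x = y} := by
  refine ⟨fun x => ?_, fun x y y' => ?_⟩
  · exact mem_fex.2 fun q _ => ⟨q, le_rfl, f x, meets_ground.2 rfl⟩
  · refine mem_fimp.2 fun q _ h => ⟨q, le_rfl, ?_⟩
    exact (meets_ground.1 h.1).symm.trans (meets_ground.1 h.2)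

/-- Choice in the extension, from a well-ordering of the ground model. -/
theorem exists_choice {X : Type v} {Y : Type w} (y0 : Y) (φ : X → Y → Set P)
    (hφ : ∀ x y, Dn (φ x y)) :
    ∃ R : X → Y → Set P, (∀ p, p ∈ IsFun R) ∧
      ∀ x, ∀ p ∈ fex (φ x), ∃ r ≤ p, ∃ y, r ∈ meets (R x y) ∧ r ∈ φ x y := by
  classical
  obtain ⟨lt, hlt⟩ := exists_wellFoundedLT Y
  have hwf : WellFounded ((· < ·) : Y → Y → Prop) := wellFounded_lt
  let R : X → Y → Set P := fun x y =>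
    {p | (p ∈ φ x y ∧ ∀ y' < y, p ∈ fnot (φ x y')) ∨ (y = y0 ∧ ∀ y', p ∈ fnot (φ x y'))}
  have hR : ∀ x y, Dn (R x y) := by
    rintro x y p (⟨h1, h2⟩ | ⟨h1, h2⟩) q hq
    · exact Or.inl ⟨hφ x y p h1 q hq, fun y' hy' => dn_fnot _ p (h2 y' hy') q hq⟩
    · exact Or.inr ⟨h1, fun y' => dn_fnot _ p (h2 y') q hq⟩
  have hleast : ∀ x, ∀ p, (∃ y, p ∈ φ x y) → ∃ r ≤ p, ∃ y, r ∈ φ x y ∧ ∀ y' < y, r ∈ fnot (φ x y') := by
    rintro x p ⟨y, hy⟩
    let S : Set Y := {y | ∃ r ≤ p, r ∈ φ x y}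
    have hS : S.Nonempty := ⟨y, p, le_rfl, hy⟩
    obtain ⟨r, hr, hrm⟩ := hwf.min_mem S hS
    refine ⟨r, hr, hwf.min S hS, hrm, fun y' hy' s hs hsy => ?_⟩
    exact hwf.not_lt_min S (x := y') ⟨s, hs.trans hr, hsy⟩ hy'
  refine ⟨R, fun p => ⟨fun x => mem_fex.2 fun q _ => ?_, fun x y y' => ?_⟩, ?_⟩
  · by_cases h : ∃ r ≤ q, ∃ y, r ∈ φ x y
    · obtain ⟨r, hr, hy⟩ := h
      obtain ⟨s, hs, y, h1, h2⟩ := hleast x r hy
      exact ⟨s, hs.trans hr, y, meets_of_mem (s := s) (Or.inl ⟨h1, h2⟩) le_rfl⟩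
    · push Not at h
      exact ⟨q, le_rfl, y0, meets_of_mem (s := q) (Or.inr ⟨rfl, fun y' r hr hr' => h r hr y' hr'⟩) le_rfl⟩
  · refine mem_fimp.2 fun q _ ⟨h1, h2⟩ => ?_
    obtain ⟨r1, hr1, h3⟩ := exists_mem_of_meets (hR x y) h1
    obtain ⟨r2, hr2, h4⟩ := exists_mem_of_meets (hR x y') (dn_meets _ _ h2 r1 hr1)
    have h5 := hR x y r1 h3 r2 hr2
    refine ⟨r2, hr2.trans hr1, ?_⟩
    show y = y'
    rcases h5 with ⟨h6, h7⟩ | ⟨h6, h7⟩ <;> rcases h4 with ⟨h8, h9⟩ | ⟨h8, h9⟩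
    · rcases lt_trichotomy y y' with h | h | h
      · exact absurd h6 (h9 y h r2 le_rfl)
      · exact h
      · exact absurd h8 (h7 y' h r2 le_rfl)
    · exact absurd h6 (h9 y r2 le_rfl)
    · exact absurd h8 (h7 y' r2 le_rfl)
    · rw [h6, h8]
  · intro x p hp
    obtain ⟨r, hr, y, hy⟩ := mem_fex.1 hp p le_rfl
    obtain ⟨s, hs, y, h1, h2⟩ := hleast x r ⟨y, hy⟩
    exact ⟨s, hs.trans hr, y, meets_of_mem (s := s) (Or.inl ⟨h1, h2⟩) le_rfl, h1⟩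

end Pool.Agent.H637.F
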